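import Mathlib
import Pool.Agent.L7h48.SGQ.Stm

/-!
# Project SGQ, part CA (owner: helper48): the number of the solutions (a copy of `L7h75/SGP/CA.lean`)
-/

set_option autoImplicit false

namespace Pool.Agent.L7h23.SGQ.CAx

open Finset Pool.Agent.L7h48.SGQ
open Pool.Agent.L7h48.SGP (Wt Hh k3)

/-- the real inequalities for one solution -/
lemma bounds (r X D j m x y : ℕ) (hDX : D ≤ X) (hj : j ≤ 1) (h : Tri2 r D j m x y)
    (hm : (m : ℝ) ≤ 4 / Real.pi * √(D : ℝ)) :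
    (m : ℝ) ≤ 4 / Real.pi * √(X : ℝ) ∧ (y : ℝ) ≤ 3 * √√(X : ℝ) ∧
      √(3 ^ j * (m : ℝ) ^ 3 - √(X : ℝ) ^ 2 * (y : ℝ) ^ 2) ≤ x ∧
      (x : ℝ) ≤ √(3 ^ j * (m : ℝ) ^ 3 - (Real.pi / 4 * m) ^ 2 * (y : ℝ) ^ 2) := by
  have hpi := Real.pi_pos
  have hpi3 := Real.pi_gt_three
  have hD0 : (0 : ℝ) ≤ D := Nat.cast_nonneg D
  have hX0 : (0 : ℝ) ≤ X := Nat.cast_nonneg X
  have hDXr : (D : ℝ) ≤ X := by exact_mod_cast hDX
  have hsD : √(D : ℝ) ≤ √(X : ℝ) := Real.sqrt_le_sqrt hDXr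
  have hm0 : (0 : ℝ) < m := by exact_mod_cast h.m0
  have hy0 : (0 : ℝ) < y := by exact_mod_cast h.y0
  have heq : (x : ℝ) ^ 2 + D * (y : ℝ) ^ 2 = 3 ^ j * (m : ℝ) ^ 3 := by
    have := h.eq
    exact_mod_cast this
  have h1 : (m : ℝ) ≤ 4 / Real.pi * √(X : ℝ) :=
    hm.trans (mul_le_mul_of_nonneg_left hsD (by positivity))
  have h2 : Real.pi / 4 * (m : ℝ) ≤ √(D : ℝ) := by
    calc Real.pi / 4 * (m : ℝ) ≤ Real.pi / 4 * (4 / Real.pi * √(D : ℝ)) :=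
          mul_le_mul_of_nonneg_left hm (by positivity)
      _ = √(D : ℝ) := by field_simp
  have h3 : (Real.pi / 4 * (m : ℝ)) ^ 2 ≤ D := by
    calc (Real.pi / 4 * (m : ℝ)) ^ 2 ≤ √(D : ℝ) ^ 2 := pow_le_pow_left₀ (by positivity) h2 2
      _ = D := Real.sq_sqrt hD0
  have h4 : (Real.pi / 4 * (m : ℝ)) ^ 2 * (y : ℝ) ^ 2 ≤ D * (y : ℝ) ^ 2 :=
    mul_le_mul_of_nonneg_right h3 (sq_nonneg _)
  have h5 : (D : ℝ) * (y : ℝ) ^ 2 ≤ X * (y : ℝ) ^ 2 :=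
    mul_le_mul_of_nonneg_right hDXr (sq_nonneg _)
  refine ⟨h1, ?_, ?_, ?_⟩
  · -- y
    have h3j : (3 : ℝ) ^ j ≤ 3 := by
      calc (3 : ℝ) ^ j ≤ 3 ^ 1 := pow_le_pow_right₀ (by norm_num) hj
        _ = 3 := by norm_num
    have a1 : (Real.pi / 4 * (m : ℝ)) ^ 2 * (y : ℝ) ^ 2 ≤ 3 * (m : ℝ) ^ 3 := by
      have : (3 : ℝ) ^ j * (m : ℝ) ^ 3 ≤ 3 * (m : ℝ) ^ 3 :=
        mul_le_mul_of_nonneg_right h3j (by positivity)
      nlinarith [sq_nonneg (x : ℝ)]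
    have a2 : (Real.pi / 4) ^ 2 * (y : ℝ) ^ 2 ≤ 3 * (m : ℝ) := by
      have e1 : (Real.pi / 4 * (m : ℝ)) ^ 2 * (y : ℝ) ^ 2 =
        (m : ℝ) ^ 2 * ((Real.pi / 4) ^ 2 * (y : ℝ) ^ 2) := by ring
      have e2 : 3 * (m : ℝ) ^ 3 = (m : ℝ) ^ 2 * (3 * (m : ℝ)) := by ring
      rw [e1, e2] at a1
      exact le_of_mul_le_mul_left a1 (by positivity)
    have a3 : (9 / 16 : ℝ) * (y : ℝ) ^ 2 ≤ 3 * (m : ℝ) := by
      have : (9 / 16 : ℝ) ≤ (Real.pi / 4) ^ 2 := by nlinarith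
      nlinarith [sq_nonneg (y : ℝ)]
    have a4 : (m : ℝ) ≤ 4 / 3 * √(X : ℝ) := by
      refine h1.trans (mul_le_mul_of_nonneg_right ?_ (Real.sqrt_nonneg _))
      exact div_le_div_of_nonneg_left (by norm_num) (by norm_num) hpi3.le
    have a5 : ((y : ℝ) / 3) ^ 2 ≤ √(X : ℝ) := by nlinarith
    have a6 : (y : ℝ) / 3 ≤ √√(X : ℝ) := Real.le_sqrt_of_sq_le a5
    linarith
  · apply Real.sqrt_le_iff.2
    refine ⟨Nat.cast_nonneg _, ?_⟩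
    rw [Real.sq_sqrt hX0]
    linarith
  · apply Real.le_sqrt_of_sq_le
    linarith

theorem s_CA (hXC : S_XC) : S_CA := by
  intro r X hr B hB
  have hpi := Real.pi_pos
  have hB' : ∀ D ∈ B, ∃ j m x y : ℕ, D ≤ X ∧ D % 12 = r ∧ j ≤ 1 ∧ Tri2 r D j m x y ∧
      (m : ℝ) ≤ 4 / Real.pi * √(D : ℝ) := by
    intro D hD
    obtain ⟨h1, h2, j, hj, m, x, y, h3, h4⟩ := hB D hD
    exact ⟨j, m, x, y, h1, h2, hj, h3, h4⟩
  choose! fj fm fx fy hf using hB'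
  set M : ℕ := ⌊4 / Real.pi * √(X : ℝ)⌋₊ with hM
  set Y : ℕ := ⌊3 * √√(X : ℝ)⌋₊ with hY
  have hmaps : ∀ D ∈ B, (fj D, fm D, fy D) ∈ range 2 ×ˢ (Icc 1 M ×ˢ Icc 1 Y) := by
    intro D hD
    obtain ⟨h1, h2, h3, h4, h5⟩ := hf D hD
    obtain ⟨b1, b2, _, _⟩ := bounds r X D _ _ _ _ h1 h3 h4 h5
    simp only [mem_product, mem_range, mem_Icc]
    exact ⟨by omega, ⟨h4.m0, Nat.le_floor b1⟩, ⟨h4.y0, Nat.le_floor b2⟩⟩
  have hcard := card_eq_sum_card_fiberwise (f := fun D => (fj D, fm D, fy D))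
    (s := B) (t := range 2 ×ˢ (Icc 1 M ×ˢ Icc 1 Y)) (by
      intro D hD
      exact hmaps D hD)
  have hcard' : (B.card : ℝ) = ∑ b ∈ range 2 ×ˢ (Icc 1 M ×ˢ Icc 1 Y),
      ((B.filter fun D => (fj D, fm D, fy D) = b).card : ℝ) := by
    exact_mod_cast hcard
  rw [hcard', sum_product]
  apply sum_le_sum
  intro j hj
  rw [sum_product]
  apply sum_le_sum
  intro m hm
  apply sum_le_sum
  intro y hy
  rw [mem_range] at hj
  rw [mem_Icc] at hm hy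
  have hj1 : j ≤ 1 := by omega
  set T := (B.filter fun D => (fj D, fm D, fy D) = (j, m, y)).image fx with hT
  have hinj : T.card = (B.filter fun D => (fj D, fm D, fy D) = (j, m, y)).card := by
    rw [hT]
    apply card_image_of_injOn
    intro D hD D' hD' hx
    simp only [coe_filter, Set.mem_ofPred_eq, Prod.mk.injEq] at hD hD'
    obtain ⟨hDB, e1, e2, e3⟩ := hD
    obtain ⟨hDB', e1', e2', e3'⟩ := hD'
    obtain ⟨_, _, _, h4, _⟩ := hf D hDB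
    obtain ⟨_, _, _, h4', _⟩ := hf D' hDB'
    have q1 := h4.eq
    have q2 := h4'.eq
    rw [e1, e2, e3] at q1
    rw [e1', e2', e3', ← hx] at q2
    have q3 : D * y ^ 2 = D' * y ^ 2 := by omega
    exact Nat.eq_of_mul_eq_mul_right (by have := hy.1; positivity) q3
  rw [← hinj]
  have hy0 : (0 : ℝ) < y := by exact_mod_cast hy.1
  have hmM : Real.pi / 4 * (m : ℝ) ≤ √(X : ℝ) := by
    have h1 : (m : ℝ) ≤ 4 / Real.pi * √(X : ℝ) :=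
      le_trans (by exact_mod_cast hm.2) (Nat.floor_le (by positivity))
    calc Real.pi / 4 * (m : ℝ) ≤ Real.pi / 4 * (4 / Real.pi * √(X : ℝ)) :=
          mul_le_mul_of_nonneg_left h1 (by positivity)
      _ = √(X : ℝ) := by field_simp
  have hab : √(3 ^ j * (m : ℝ) ^ 3 - √(X : ℝ) ^ 2 * (y : ℝ) ^ 2) ≤
      √(3 ^ j * (m : ℝ) ^ 3 - (Real.pi / 4 * m) ^ 2 * (y : ℝ) ^ 2) := by
    apply Real.sqrt_le_sqrt
    have h1 : (Real.pi / 4 * (m : ℝ)) ^ 2 ≤ √(X : ℝ) ^ 2 := pow_le_pow_left₀ (by positivity) hmM 2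
    have h2 := mul_le_mul_of_nonneg_right h1 (sq_nonneg (y : ℝ))
    linarith
  have key := hXC r j m y hr hj1 (by omega) (by omega) _ _ hab T (by
    intro x hx
    rw [hT, mem_image] at hx
    obtain ⟨D, hD, rfl⟩ := hx
    rw [mem_filter, Prod.mk.injEq, Prod.mk.injEq] at hD
    obtain ⟨hDB, e1, e2, e3⟩ := hD
    obtain ⟨h1, h2, h3, h4, h5⟩ := hf D hDB
    rw [e1, e2, e3] at h4
    rw [e2] at h5
    obtain ⟨_, _, b3, b4⟩ := bounds r X D _ _ _ _ h1 hj1 h4 h5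
    exact ⟨b3, b4, D, h2, h4⟩)
  refine key.trans (le_of_eq ?_)
  unfold Hh
  ring

end Pool.Agent.L7h23.SGQ.CAx
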