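import Pool.Agent.L7h48.SGQ.Stm
import Pool.Agent.L7h23.SGP.C2
import Pool.Agent.L7h23.SGP.XC

/-!
# Project SGQ: the classes of `x` (CQ, C3, C2, XC)
-/

set_option autoImplicit false

namespace Pool.Agent.L7h23.SGQ

open Pool.Agent.L7h48.SGP (Cov Wt k3 S_CV)
open Pool.Agent.L7h48.SGQ
open Pool.Agent.L7h23.SGP

/-! ### CQ -/

theorem s_CQ : S_CQ := by
  intro r j m y hr hj hm hy q hq hq5 hqy
  have := Fact.mk hq
  by_cases hqm : q ∣ m
  · -- the prime divides `m`
    have h1 : jacobiSym ((3 ^ j * m : ℕ) : ℤ) q = 0 := by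
      rw [jacobiSym.eq_zero_iff]
      refine ⟨hq.ne_zero, fun h => ?_⟩
      have h2 : q ∣ Int.gcd ((3 ^ j * m : ℕ) : ℤ) (q : ℤ) := by
        rw [Int.gcd_natCast_natCast]
        exact Nat.dvd_gcd (hqm.mul_left _) dvd_rfl
      rw [h] at h2
      exact hq.one_lt.ne' (Nat.dvd_one.1 h2)
    rw [h1, Int.cast_zero, add_zero]
    refine ⟨{0}, by simp, fun x hx => ?_⟩
    obtain ⟨D, hD, hT⟩ := hx
    obtain ⟨h2, h3⟩ := hT.big q hq hq5 hqy hqm
    have h4 : y.factorization q = 1 := fac_one hq hy hqy h2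
    rw [h4, Finset.mem_singleton]
    exact Nat.mod_eq_zero_of_dvd h3
  · -- the prime does not divide `m`
    have hq3 : ¬ q ∣ 3 ^ j * m := by
      intro h
      rcases hq.dvd_mul.1 h with h1 | h1
      · have h2 := (Nat.prime_dvd_prime_iff_eq hq Nat.prime_three).1 (hq.dvd_of_dvd_pow h1)
        omega
      · exact hqm h1
    have hsq : ∀ x D : ℕ, Tri2 r D j m x y →
        ((q ^ (2 * y.factorization q) : ℕ) : ℤ) ∣ (x : ℤ) ^ 2 - (3 ^ j * m ^ 3 : ℕ) := by
      intro x D hT
      have h1 : q ^ (2 * y.factorization q) ∣ y ^ 2 := by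
        rw [mul_comm, pow_mul]
        exact pow_dvd_pow_of_dvd (Nat.ordProj_dvd y q) 2
      have h2 : (x : ℤ) ^ 2 - (3 ^ j * m ^ 3 : ℕ) = -((D : ℤ) * ((y ^ 2 : ℕ) : ℤ)) := by
        have h3 : (x : ℤ) ^ 2 + (D : ℤ) * ((y ^ 2 : ℕ) : ℤ) = (3 ^ j * m ^ 3 : ℕ) := by
          exact_mod_cast hT.eq
        linarith
      rw [h2, Int.dvd_neg]
      exact (Int.natCast_dvd_natCast.2 h1).mul_left _
    have hunit : ∀ x D : ℕ, Tri2 r D j m x y → ¬ q ∣ x := by
      intro x D hT h
      have h1 := hT.eq
      have h3 : q ∣ 3 ^ j * m ^ 3 := by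
        rw [← h1]
        exact Nat.dvd_add (dvd_pow h two_ne_zero) ((dvd_pow hqy two_ne_zero).mul_left _)
      rcases hq.dvd_mul.1 h3 with h4 | h4
      · exact hq3 (h4.mul_right _)
      · exact hqm (hq.dvd_of_dvd_pow h4)
    by_cases hne : ∃ x D, D % 12 = r ∧ Tri2 r D j m x y
    · obtain ⟨z, D, hD, hT⟩ := hne
      have h1 : jacobiSym ((3 ^ j * m : ℕ) : ℤ) q = 1 := by
        have h2 := hsq z D hT
        have h3 : (q : ℤ) ∣ (z : ℤ) ^ 2 - (3 ^ j * m ^ 3 : ℕ) := by
          refine dvd_trans (Int.natCast_dvd_natCast.2 (dvd_pow_self q ?_)) h2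
          have h5 : 1 ≤ y.factorization q := (hq.dvd_iff_one_le_factorization hy.ne').1 hqy
          omega
        have h4 : jacobiSym ((z : ℤ) ^ 2) q = jacobiSym ((3 ^ j * m ^ 3 : ℕ) : ℤ) q := by
          rw [jacobiSym.mod_left ((z : ℤ) ^ 2), jacobiSym.mod_left ((3 ^ j * m ^ 3 : ℕ) : ℤ)]
          have h5 : (z : ℤ) ^ 2 ≡ ((3 ^ j * m ^ 3 : ℕ) : ℤ) [ZMOD q] :=
            ((Int.modEq_iff_dvd).2 h3).symm
          rw [h5]
        have h5 : ((3 ^ j * m ^ 3 : ℕ) : ℤ) = ((3 ^ j * m : ℕ) : ℤ) * (m : ℤ) ^ 2 := by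
          push_cast
          ring
        have h6 : Int.gcd (m : ℤ) q = 1 := by
          rw [Int.gcd_natCast_natCast]
          exact Nat.Coprime.symm ((hq.coprime_iff_not_dvd).2 hqm)
        have h7 : Int.gcd (z : ℤ) q = 1 := by
          rw [Int.gcd_natCast_natCast]
          exact Nat.Coprime.symm ((hq.coprime_iff_not_dvd).2 (hunit z D hT))
        rw [h5, jacobiSym.mul_left, jacobiSym.sq_one' h7, jacobiSym.sq_one' h6, mul_one] at h4
        exact h4.symm
      rw [h1]
      refine ⟨{z % q ^ (2 * y.factorization q),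
        (q ^ (2 * y.factorization q) - z % q ^ (2 * y.factorization q)) %
          q ^ (2 * y.factorization q)}, ?_, fun x hx => ?_⟩
      · refine (card_pair _ _).trans ?_
        norm_num
      · obtain ⟨D', hD', hT'⟩ := hx
        refine two_classes hq (by omega) (hunit z D hT) ?_
        have h2 := Int.dvd_sub (hsq x D' hT') (hsq z D hT)
        have h3 : (x : ℤ) ^ 2 - (3 ^ j * m ^ 3 : ℕ) - ((z : ℤ) ^ 2 - (3 ^ j * m ^ 3 : ℕ)) =
            (x : ℤ) ^ 2 - (z : ℤ) ^ 2 := by ring
        rwa [h3] at h2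
    · refine ⟨∅, ?_, fun x hx => absurd ⟨x, hx⟩ hne⟩
      rw [Finset.card_empty, Nat.cast_zero]
      rcases jacobiSym.trichotomy ((3 ^ j * m : ℕ) : ℤ) q with h | h | h <;> rw [h] <;> norm_num

/-! ### C3 -/

theorem s_C3 : S_C3 := by
  intro r j m y hr hj hm hy
  by_cases h3 : y % 3 = 0
  · have h3' : 3 ∣ y := Nat.dvd_of_mod_eq_zero h3
    by_cases h9 : y % 9 = 0
    · have h9' : 3 ^ 2 ∣ y := Nat.dvd_of_mod_eq_zero h9
      by_cases hc : j = 0 ∧ m % 3 = 1
      · obtain ⟨rfl, hm1⟩ := hc
        have hk : k3 0 m y = 2 / 3 := by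
          unfold k3
          rw [if_pos rfl, if_neg (by omega), if_pos h9, if_pos hm1]
        refine ⟨2 * y.factorization 3 + 1, 2, by norm_num, le_rfl, ?_, ?_⟩
        · rw [hk, pow_succ, pow_mul]
          push_cast
          have h2 : (0 : ℝ) < 9 ^ y.factorization 3 := by positivity
          norm_num
          field_simp
        · -- at most two classes
          obtain ⟨e, he⟩ : ∃ e, e = y.factorization 3 := ⟨_, rfl⟩
          rw [← he]
          have hu : ∀ x D, Tri2 r D 0 m x y → ¬ 3 ∣ x := by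
            intro x D hT h
            have h1 := hT.eq
            have h2 : 3 ∣ 3 ^ 0 * m ^ 3 := by
              rw [← h1]
              exact Nat.dvd_add (dvd_pow h two_ne_zero) ((dvd_pow h3' two_ne_zero).mul_left _)
            have h4 : 3 ∣ m := by
              rw [pow_zero, one_mul] at h2
              exact Nat.prime_three.dvd_of_dvd_pow h2
            omega
          obtain ⟨w, hw⟩ : ∃ w, y = 3 ^ e * w := by
            rw [he]
            exact Nat.ordProj_dvd y 3
          have hd : ∀ x D x' D' : ℕ, D % 12 = r → D' % 12 = r → Tri2 r D 0 m x y →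
              Tri2 r D' 0 m x' y → ((3 ^ (2 * e + 1) : ℕ) : ℤ) ∣ (x : ℤ) ^ 2 - (x' : ℤ) ^ 2 := by
            intro x D x' D' hD hD' hT hT'
            have h1 : (x : ℤ) ^ 2 + D * (y : ℤ) ^ 2 = x' ^ 2 + D' * (y : ℤ) ^ 2 := by
              exact_mod_cast hT.eq.trans hT'.eq.symm
            have h2 : (x : ℤ) ^ 2 - (x' : ℤ) ^ 2 = (D' - D) * (y : ℤ) ^ 2 := by linarith
            obtain ⟨t, ht⟩ : (3 : ℤ) ∣ (D' : ℤ) - D := by omega
            rw [h2, ht, hw]
            push_cast
            refine ⟨t * w ^ 2, ?_⟩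
            ring
          by_cases hne : ∃ x D, D % 12 = r ∧ Tri2 r D 0 m x y
          · obtain ⟨z, D, hD, hT⟩ := hne
            refine ⟨{z % 3 ^ (2 * e + 1),
              (3 ^ (2 * e + 1) - z % 3 ^ (2 * e + 1)) % 3 ^ (2 * e + 1)},
              card_pair _ _, fun x hx => ?_⟩
            obtain ⟨D', hD', hT'⟩ := hx
            exact two_classes Nat.prime_three (by norm_num) (hu z D hT)
              (hd x D' z D hD' hD hT' hT)
          · exact ⟨∅, by simp, fun x hx => absurd ⟨x, hx⟩ hne⟩
      · have hk : k3 j m y = 0 := by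
          unfold k3
          by_cases hj0 : j = 0
          · rw [if_pos hj0, if_neg (by omega), if_pos h9, if_neg (by tauto)]
          · rw [if_neg hj0, if_neg (by omega), if_neg (by omega)]
        refine ⟨0, 0, le_rfl, by norm_num, by rw [hk, zero_div, zero_div], cov_empty ?_ _⟩
        rintro x ⟨D, hD, hT⟩
        have := hT.three
        omega
    · have h9' : ¬ 3 ^ 2 ∣ y := fun h => h9 (Nat.mod_eq_zero_of_dvd h)
      rw [fac_one Nat.prime_three hy h3' h9']
      by_cases hc : j = 1 ∧ m % 3 = 0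
      · obtain ⟨rfl, hm0⟩ := hc
        have hk : k3 1 m y = 2 / 3 := by
          unfold k3
          rw [if_neg (by norm_num), if_neg (by omega), if_pos h9, if_pos hm0]
        refine ⟨3, 2, by norm_num, le_rfl, by rw [hk]; norm_num, {12, 15}, card_pair _ _, ?_⟩
        rintro x ⟨D, hD, hT⟩
        rw [Finset.mem_insert, Finset.mem_singleton]
        have := hT.three
        omega
      · have hk : k3 j m y = 0 := by
          unfold k3
          by_cases hj0 : j = 0
          · rw [if_pos hj0, if_neg (by omega), if_neg h9]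
          · rw [if_neg hj0, if_neg (by omega), if_pos h9, if_neg (by omega)]
        refine ⟨0, 0, le_rfl, by norm_num, by rw [hk, zero_div, zero_div], cov_empty ?_ _⟩
        rintro x ⟨D, hD, hT⟩
        have := hT.three
        omega
  · rw [fac_zero fun h => h3 (Nat.mod_eq_zero_of_dvd h), pow_zero, div_one]
    by_cases hj0 : j = 0
    · subst hj0
      have hk : k3 0 m y = if m % 3 = 2 then 1 / 9 else if m % 3 = 0 then 2 / 9 else 0 := by
        unfold k3
        rw [if_pos rfl, if_pos h3]
      rcases (by omega : m % 3 = 0 ∨ m % 3 = 1 ∨ m % 3 = 2) with h | h | h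
      · rw [if_neg (by omega), if_pos h] at hk
        refine ⟨2, 2, by norm_num, le_rfl, by rw [hk]; norm_num, {4, 5}, card_pair _ _, ?_⟩
        rintro x ⟨D, hD, hT⟩
        rw [Finset.mem_insert, Finset.mem_singleton]
        have := hT.three
        omega
      · rw [if_neg (by omega), if_neg (by omega)] at hk
        refine ⟨0, 0, le_rfl, by norm_num, by rw [hk, zero_div], cov_empty ?_ _⟩
        rintro x ⟨D, hD, hT⟩
        have := hT.three
        omega
      · rw [if_pos h] at hk
        refine ⟨2, 1, by norm_num, by norm_num, by rw [hk]; norm_num, {0}, by simp, ?_⟩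
        rintro x ⟨D, hD, hT⟩
        rw [Finset.mem_singleton]
        have := hT.three
        omega
    · have hj1 : j = 1 := by omega
      subst hj1
      have hk : k3 1 m y = 2 / 9 := by
        unfold k3
        rw [if_neg (by norm_num), if_pos h3]
      rcases (by omega : m % 3 = 0 ∨ m % 3 = 1 ∨ m % 3 = 2) with h | h | h
      · refine ⟨2, 2, by norm_num, le_rfl, by rw [hk]; norm_num, {4, 5}, card_pair _ _, ?_⟩
        rintro x ⟨D, hD, hT⟩
        rw [Finset.mem_insert, Finset.mem_singleton]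
        have := hT.three
        omega
      · refine ⟨2, 2, by norm_num, le_rfl, by rw [hk]; norm_num, {2, 7}, card_pair _ _, ?_⟩
        rintro x ⟨D, hD, hT⟩
        rw [Finset.mem_insert, Finset.mem_singleton]
        have := hT.three
        omega
      · refine ⟨2, 2, by norm_num, le_rfl, by rw [hk]; norm_num, {1, 8}, card_pair _ _, ?_⟩
        rintro x ⟨D, hD, hT⟩
        rw [Finset.mem_insert, Finset.mem_singleton]
        have := hT.three
        omega

/-! ### C2 -/

theorem half_classes {a u v : ℕ} (hu : u % 2 = 1) (hv : v % 2 = 1)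
    (h : ((2 : ℤ) ^ (2 * (a + 1))) ∣ (u : ℤ) ^ 2 - (v : ℤ) ^ 2) :
    ((2 ^ (2 * a + 1) : ℕ) : ℤ) ∣ (u : ℤ) - v ∨ ((2 ^ (2 * a + 1) : ℕ) : ℤ) ∣ (u : ℤ) + v := by
  have e : (2 : ℤ) ^ (2 * (a + 1)) = 2 * ((2 ^ (2 * a + 1) : ℕ) : ℤ) := by
    push_cast
    ring
  rcases four_classes hu hv (by omega) h with h1 | h1
  · left
    rw [e] at h1
    refine Int.dvd_of_mul_dvd_mul_left (a := 2) (by norm_num) ?_
    have e2 : ((2 * u : ℕ) : ℤ) - ((2 * v : ℕ) : ℤ) = 2 * ((u : ℤ) - v) := by
      push_cast
      ring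
    rwa [e2] at h1
  · right
    rw [e] at h1
    refine Int.dvd_of_mul_dvd_mul_left (a := 2) (by norm_num) ?_
    have e2 : ((2 * u : ℕ) : ℤ) + ((2 * v : ℕ) : ℤ) = 2 * ((u : ℤ) + v) := by
      push_cast
      ring
    rwa [e2] at h1

theorem s_C2 : S_C2 := by
  intro r j m y hr hj hm hy
  have none : k22 r j m y = 0 → (∀ x D, D % 12 = r → ¬ Tri2 r D j m x y) →
      ∃ (k : ℕ) (r' : ℝ), 0 ≤ r' ∧ r' ≤ 4 ∧
      r' / (2 ^ k : ℕ) = k22 r j m y / (4 : ℝ) ^ (y.factorization 2) ∧
      Cov (fun x => ∃ D, D % 12 = r ∧ Tri2 r D j m x y) (2 ^ k) r' := by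
    intro hk h
    refine ⟨0, 0, le_rfl, by norm_num, by rw [hk, zero_div, zero_div], cov_empty ?_ _⟩
    rintro x ⟨D, hD, hT⟩
    exact h x D hD hT
  by_cases hm4 : m % 4 = 2
  · by_cases hy4 : y % 4 = 2
    · have hk : k22 r j m y = 1 := by
        unfold k22
        rw [if_pos hm4, if_pos hy4]
      have hf : y.factorization 2 = 1 := fac_one Nat.prime_two hy (by omega) (by omega)
      rcases hr with rfl | rfl
      · refine ⟨2, 1, by norm_num, by norm_num, by rw [hk, hf]; norm_num, {2}, by simp, ?_⟩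
        rintro x ⟨D, hD, hT⟩
        rw [Finset.mem_singleton]
        have := hT.two
        omega
      · refine ⟨2, 1, by norm_num, by norm_num, by rw [hk, hf]; norm_num, {0}, by simp, ?_⟩
        rintro x ⟨D, hD, hT⟩
        rw [Finset.mem_singleton]
        have := hT.two
        omega
    · refine none ?_ ?_
      · unfold k22
        rw [if_pos hm4, if_neg hy4]
      · intro x D hD hT
        have := hT.two
        omega
  · by_cases hm2 : m % 2 = 1
    · by_cases hy2 : y % 2 = 1
      · -- `y` odd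
        have hf : y.factorization 2 = 0 := fac_zero fun h => by omega
        have hk : k22 r j m y =
            if (3 ^ j * m ^ 3) % 4 = (if r = 5 then 1 else 3) then 1 / 2 else 0 := by
          unfold k22
          rw [if_neg hm4, if_pos hm2, if_pos hy2]
        obtain ⟨t, ht⟩ := odd_sq y hy2
        rcases hr with rfl | rfl
        · rw [if_pos rfl] at hk
          by_cases hn : (3 ^ j * m ^ 3) % 4 = 1
          · rw [if_pos hn] at hk
            refine ⟨1, 1, by norm_num, by norm_num, by rw [hk, hf]; norm_num, {0}, by simp, ?_⟩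
            rintro x ⟨D, hD, hT⟩
            rw [Finset.mem_singleton]
            have := hT.two
            omega
          · rw [if_neg hn] at hk
            refine none hk fun x D hD hT => ?_
            have hx : x % 2 = 0 := by
              have := hT.two
              omega
            obtain ⟨a, ha⟩ : ∃ a, x = 2 * a := ⟨x / 2, by omega⟩
            obtain ⟨c, hc⟩ : ∃ c, D = 12 * c + 5 := ⟨D / 12, by omega⟩
            have h5 := hT.eq
            rw [ha, hc, ht] at h5
            have h8 : (2 * a) ^ 2 + (12 * c + 5) * (8 * t + 1) =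
                4 * (a ^ 2 + 3 * c * (8 * t + 1) + 10 * t + 1) + 1 := by ring
            rw [h8] at h5
            omega
        · rw [if_neg (show ¬ (2 : ℕ) = 5 by norm_num)] at hk
          by_cases hn : (3 ^ j * m ^ 3) % 4 = 3
          · rw [if_pos hn] at hk
            refine ⟨1, 1, by norm_num, by norm_num, by rw [hk, hf]; norm_num, {1}, by simp, ?_⟩
            rintro x ⟨D, hD, hT⟩
            rw [Finset.mem_singleton]
            have := hT.two
            omega
          · rw [if_neg hn] at hk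
            refine none hk fun x D hD hT => ?_
            have hx : x % 2 = 1 := by
              have := hT.two
              omega
            obtain ⟨a, ha⟩ := odd_sq x hx
            obtain ⟨c, hc⟩ : ∃ c, D = 12 * c + 2 := ⟨D / 12, by omega⟩
            have h5 := hT.eq
            rw [ha, hc, ht] at h5
            have h8 : 8 * a + 1 + (12 * c + 2) * (8 * t + 1) =
                4 * (2 * a + 3 * c * (8 * t + 1) + 4 * t) + 3 := by ring
            rw [h8] at h5
            omega
      · -- `y` even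
        have hx2 : ∀ x D, Tri2 r D j m x y → x % 2 = 1 := by
          intro x D hT
          have := hT.two
          omega
        obtain ⟨a, ha⟩ : ∃ a, a = y.factorization 2 := ⟨_, rfl⟩
        have ha1 : 1 ≤ a := by
          rw [ha]
          exact (Nat.prime_two.dvd_iff_one_le_factorization hy.ne').1 (by omega)
        obtain ⟨w, hw⟩ : ∃ w, y = 2 ^ a * w := by
          rw [ha]
          exact Nat.ordProj_dvd y 2
        have hw2 : w % 2 = 1 := by
          by_contra hcon
          obtain ⟨w', hw'⟩ : 2 ∣ w := by omega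
          have h5 : 2 ^ (a + 1) ∣ y := ⟨w', by rw [hw, hw', pow_succ]; ring⟩
          have h6 := (Nat.prime_two.pow_dvd_iff_le_factorization hy.ne').1 h5
          omega
        obtain ⟨t, ht⟩ := odd_sq w hw2
        obtain ⟨b, hb⟩ : ∃ b, a = b + 1 := ⟨a - 1, by omega⟩
        -- the classes
        have hcov : Cov (fun x => ∃ D, D % 12 = r ∧ Tri2 r D j m x y) (2 ^ (2 * a + 2)) 4 := by
          by_cases hne : ∃ x D, D % 12 = r ∧ Tri2 r D j m x y
          · obtain ⟨z, D, hD, hT⟩ := hne
            refine ⟨_, card_four (z % 2 ^ (2 * a + 1)) (z % 2 ^ (2 * a + 1) + 2 ^ (2 * a + 1))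
              ((2 ^ (2 * a + 1) - z % 2 ^ (2 * a + 1)) % 2 ^ (2 * a + 1))
              ((2 ^ (2 * a + 1) - z % 2 ^ (2 * a + 1)) % 2 ^ (2 * a + 1) + 2 ^ (2 * a + 1)),
              fun x hx => ?_⟩
            obtain ⟨D', hD', hT'⟩ := hx
            have h5 : ((2 : ℤ) ^ (2 * (a + 1))) ∣ (x : ℤ) ^ 2 - (z : ℤ) ^ 2 := by
              have h1 : (x : ℤ) ^ 2 + D' * (y : ℤ) ^ 2 = z ^ 2 + D * (y : ℤ) ^ 2 := by
                exact_mod_cast hT'.eq.trans hT.eq.symm
              have h2 : (x : ℤ) ^ 2 - (z : ℤ) ^ 2 = (D - D') * (y : ℤ) ^ 2 := by linarith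
              obtain ⟨t, ht⟩ : (4 : ℤ) ∣ (D : ℤ) - D' := by omega
              rw [h2, ht, hw]
              push_cast
              refine ⟨t * w ^ 2, ?_⟩
              ring
            have h6 := half_classes (hx2 x D' hT') (hx2 z D hT) h5
            have h7 : (2 : ℕ) ^ (2 * a + 2) = 2 * 2 ^ (2 * a + 1) := by rw [pow_succ]; ring
            rw [h7]
            exact mem_four (by positivity) h6
          · exact ⟨∅, by simp, fun x hx => absurd ⟨x, hx⟩ hne⟩
        have hnum : (4 : ℝ) / (2 ^ (2 * a + 2) : ℕ) = 1 / 4 ^ a := by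
          have h5 : ((2 ^ (2 * a + 2) : ℕ) : ℝ) = 4 * 4 ^ a := by
            push_cast
            rw [pow_add, pow_mul]
            norm_num
            ring
          rw [h5]
          have h6 : (0 : ℝ) < 4 ^ a := by positivity
          field_simp
        -- the value modulo `8`
        by_cases hy4 : y % 4 = 2
        · have hb0 : b = 0 := by
            rcases Nat.eq_zero_or_pos b with h | h
            · exact h
            · exfalso
              obtain ⟨b', hb'⟩ : ∃ b', b = b' + 1 := ⟨b - 1, by omega⟩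
              rw [hw, hb, hb'] at hy4
              have h9 : (2 : ℕ) ^ (b' + 1 + 1) * w = 4 * (2 ^ b' * w) := by
                rw [pow_succ, pow_succ]; ring
              rw [h9] at hy4
              omega
          have hk : k22 r j m y =
              if (3 ^ j * m ^ 3) % 8 = (if r = 5 then 5 else 1) then 1 else 0 := by
            unfold k22
            rw [if_neg hm4, if_pos hm2, if_neg hy2, if_pos hy4]
          by_cases hn : (3 ^ j * m ^ 3) % 8 = (if r = 5 then 5 else 1)
          · rw [if_pos hn] at hk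
            refine ⟨2 * a + 2, 4, by norm_num, le_rfl, ?_, hcov⟩
            rw [hk, ← ha, hnum]
          · rw [if_neg hn] at hk
            refine none hk fun x D hD hT => ?_
            obtain ⟨u, hu⟩ := odd_sq x (hx2 x D hT)
            have h5 := hT.eq
            have h9 : y ^ 2 = 4 * (8 * t + 1) := by
              rw [hw, hb, hb0, mul_pow, ht]
              ring
            rw [hu, h9] at h5
            rcases hr with rfl | rfl
            · rw [if_pos rfl] at hn
              obtain ⟨c, hc⟩ : ∃ c, D = 12 * c + 5 := ⟨D / 12, by omega⟩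
              rw [hc] at h5
              have h10 : 8 * u + 1 + (12 * c + 5) * (4 * (8 * t + 1)) =
                  8 * (u + 6 * c * (8 * t + 1) + 20 * t + 2) + 5 := by ring
              rw [h10] at h5
              omega
            · rw [if_neg (show ¬ (2 : ℕ) = 5 by norm_num)] at hn
              obtain ⟨c, hc⟩ : ∃ c, D = 12 * c + 2 := ⟨D / 12, by omega⟩
              rw [hc] at h5
              have h10 : 8 * u + 1 + (12 * c + 2) * (4 * (8 * t + 1)) =
                  8 * (u + 6 * c * (8 * t + 1) + 8 * t + 1) + 1 := by ring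
              rw [h10] at h5
              omega
        · have hb1 : 1 ≤ b := by
            rcases Nat.eq_zero_or_pos b with h | h
            · exfalso
              rw [hw, hb, h] at hy4
              apply hy4
              have h9 : (2 : ℕ) ^ (0 + 1) * w = 2 * w := by norm_num
              rw [h9]
              omega
            · exact h
          have hk : k22 r j m y = if (3 ^ j * m ^ 3) % 8 = 1 then 1 else 0 := by
            unfold k22
            rw [if_neg hm4, if_pos hm2, if_neg hy2, if_neg hy4]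
          by_cases hn : (3 ^ j * m ^ 3) % 8 = 1
          · rw [if_pos hn] at hk
            refine ⟨2 * a + 2, 4, by norm_num, le_rfl, ?_, hcov⟩
            rw [hk, ← ha, hnum]
          · rw [if_neg hn] at hk
            refine none hk fun x D hD hT => ?_
            obtain ⟨u, hu⟩ := odd_sq x (hx2 x D hT)
            have h5 := hT.eq
            obtain ⟨b', hb'⟩ : ∃ b', b = b' + 1 := ⟨b - 1, by omega⟩
            have h9 : y ^ 2 = 8 * (2 * (2 ^ b') ^ 2 * w ^ 2) := by
              rw [hw, hb, hb', mul_pow]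
              ring
            rw [hu, h9] at h5
            have h10 : 8 * u + 1 + D * (8 * (2 * (2 ^ b') ^ 2 * w ^ 2)) =
                8 * (u + D * (2 * (2 ^ b') ^ 2 * w ^ 2)) + 1 := by ring
            rw [h10] at h5
            omega
    · refine none ?_ ?_
      · unfold k22
        rw [if_neg hm4, if_neg hm2]
      · intro x D hD hT
        have := hT.two
        omega

/-! ### XC -/

theorem cov_prod (hCV : S_CV) (hCQ : S_CQ) {r j m y : ℕ} (hr : r = 5 ∨ r = 2) (hj : j ≤ 1)
    (hm : 0 < m) (hy : 0 < y)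
    (s : Finset ℕ) (hs : s ⊆ y.primeFactors.filter (5 ≤ ·)) :
    Cov (fun x => ∃ D, D % 12 = r ∧ Tri2 r D j m x y) (∏ q ∈ s, q ^ (2 * y.factorization q))
      (∏ q ∈ s, (1 + (jacobiSym ((3 ^ j * m : ℕ) : ℤ) q : ℝ))) := by
  classical
  induction s using Finset.induction_on with
  | empty => exact ⟨{0}, by simp, fun x _ => by simp [Nat.mod_one]⟩
  | insert q s hq ih =>
    have hq1 := Finset.mem_filter.1 (hs (Finset.mem_insert_self q s))
    have hqp := Nat.prime_of_mem_primeFactors hq1.1
    rw [Finset.prod_insert hq, Finset.prod_insert hq]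
    have hs' : s ⊆ y.primeFactors.filter (5 ≤ ·) := fun u hu => hs (Finset.mem_insert_of_mem hu)
    refine hCV.1 _ _ _ _ _ (Nat.pow_pos hqp.pos) ?_ ?_
      (hCQ r j m y hr hj hm hy q hqp hq1.2 (Nat.dvd_of_mem_primeFactors hq1.1)) (ih hs')
    · exact Finset.prod_pos fun u hu => Nat.pow_pos
        (Nat.prime_of_mem_primeFactors (Finset.mem_filter.1 (hs' hu)).1).pos
    · refine Nat.Coprime.prod_right fun u hu => ?_
      have hup := Nat.prime_of_mem_primeFactors (Finset.mem_filter.1 (hs' hu)).1
      refine Nat.Coprime.pow _ _ ((Nat.coprime_primes hqp hup).2 ?_)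
      rintro rfl
      exact hq hu

theorem s_XC (hCV : S_CV) (hCQ : S_CQ) (hC2 : S_C2) (hC3 : S_C3) : S_XC := by
  intro r₀ j m y hr₀ hj hm hy α β hαβ T hT
  obtain ⟨k, r, hr0, hr4, hr, hc⟩ := hC2 r₀ j m y hr₀ hj hm hy
  obtain ⟨k', r', hr0', hr2', hr', hc'⟩ := hC3 r₀ j m y hr₀ hj hm hy
  have h1 := cov_prod hCV hCQ hr₀ hj hm hy _ (Finset.Subset.refl _)
  have hpos : 0 < ∏ q ∈ y.primeFactors.filter (5 ≤ ·), q ^ (2 * y.factorization q) :=
    Finset.prod_pos fun u hu => Nat.pow_pos
      (Nat.prime_of_mem_primeFactors (Finset.mem_filter.1 hu).1).pos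
  have h2 := hCV.1 _ _ _ _ _ (Nat.pow_pos (n := k) two_pos) (Nat.pow_pos (n := k') three_pos)
    (Nat.Coprime.pow _ _ (by norm_num)) hc hc'
  have h23 : 0 < 2 ^ k * 3 ^ k' := Nat.mul_pos (Nat.pow_pos two_pos) (Nat.pow_pos three_pos)
  have h3 := hCV.1 _ _ _ _ _ h23 hpos (by
    refine Nat.Coprime.prod_right fun u hu => ?_
    have hu1 := Finset.mem_filter.1 hu
    have hup := Nat.prime_of_mem_primeFactors hu1.1
    refine Nat.Coprime.mul_left ?_ ?_
    · refine Nat.Coprime.pow _ _ ((Nat.coprime_primes Nat.prime_two hup).2 ?_)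
      rintro rfl
      exact absurd hu1.2 (by norm_num)
    · refine Nat.Coprime.pow _ _ ((Nat.coprime_primes Nat.prime_three hup).2 ?_)
      rintro rfl
      exact absurd hu1.2 (by norm_num)) h2 h1
  have h4 := hCV.2 _ _ _ α β (Nat.mul_pos h23 hpos) hαβ h3 T
    fun x hx => ⟨(hT x hx).2.2, (hT x hx).1, (hT x hx).2.1⟩
  have hW : (∏ q ∈ y.primeFactors.filter (5 ≤ ·),
      (1 + (jacobiSym ((3 ^ j * m : ℕ) : ℤ) q : ℝ))) = Wt j m y := rfl
  rw [hW] at h4
  have hW0 := wt_nonneg j m y
  have h5 : r * r' * Wt j m y / ((2 ^ k * 3 ^ k' *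
      ∏ q ∈ y.primeFactors.filter (5 ≤ ·), q ^ (2 * y.factorization q) : ℕ) : ℝ) =
      k22 r₀ j m y * k3 j m y * Wt j m y / y ^ 2 := by
    have hP : (∏ q ∈ y.primeFactors.filter (5 ≤ ·), (q : ℝ) ^ (2 * y.factorization q)) =
        (∏ q ∈ y.primeFactors.filter (5 ≤ ·), (q : ℝ) ^ y.factorization q) ^ 2 := by
      rw [← Finset.prod_pow]
      refine Finset.prod_congr rfl fun q _ => ?_
      rw [mul_comm, pow_mul]
    have hP0 : 0 < ∏ q ∈ y.primeFactors.filter (5 ≤ ·), (q : ℝ) ^ y.factorization q :=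
      Finset.prod_pos fun u hu => pow_pos (Nat.cast_pos.2
        (Nat.prime_of_mem_primeFactors (Finset.mem_filter.1 hu).1).pos) _
    have h6 : r * r' * Wt j m y / ((2 ^ k * 3 ^ k' *
      ∏ q ∈ y.primeFactors.filter (5 ≤ ·), q ^ (2 * y.factorization q) : ℕ) : ℝ) =
        (r / (2 ^ k : ℕ)) * (r' / (3 ^ k' : ℕ)) * Wt j m y /
          (∏ q ∈ y.primeFactors.filter (5 ≤ ·), (q : ℝ) ^ y.factorization q) ^ 2 := by
      rw [← hP]
      push_cast
      field_simp
    rw [h6, hr, hr']
    have h11 : (y : ℝ) ^ 2 = (2 ^ y.factorization 2 * 3 ^ y.factorization 3 *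
        ∏ q ∈ y.primeFactors.filter (5 ≤ ·), (q : ℝ) ^ y.factorization q) ^ 2 := by
      rw [prod_fac hy]
    rw [h11]
    have h7 : (4 : ℝ) ^ y.factorization 2 = (2 ^ y.factorization 2) ^ 2 := by
      rw [← pow_mul, mul_comm, pow_mul]
      norm_num
    have h8 : (9 : ℝ) ^ y.factorization 3 = (3 ^ y.factorization 3) ^ 2 := by
      rw [← pow_mul, mul_comm, pow_mul]
      norm_num
    rw [h7, h8]
    have h9 : (0 : ℝ) < 2 ^ y.factorization 2 := by positivity
    have h10 : (0 : ℝ) < 3 ^ y.factorization 3 := by positivity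
    field_simp
  have h6 : r * r' * Wt j m y ≤ 8 * Wt j m y := by
    refine mul_le_mul_of_nonneg_right ?_ hW0
    nlinarith
  calc (T.card : ℝ) ≤ _ := h4
    _ = r * r' * Wt j m y / ((2 ^ k * 3 ^ k' *
      ∏ q ∈ y.primeFactors.filter (5 ≤ ·), q ^ (2 * y.factorization q) : ℕ) : ℝ) * (β - α) +
        r * r' * Wt j m y := by ring
    _ ≤ _ := by
      rw [h5]
      linarith

end Pool.Agent.L7h23.SGQ
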