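import Mathlib
import Pool.Agent.L7h48.SGQ.Stm

/-!
# Project SGQ, part SQ (owner: helper48): squarefree numbers congruent to 5 or 2 modulo 12
(a copy of `L7h75/SGP/SQ.lean`)
-/

set_option autoImplicit false

namespace Pool.Agent.L7h23.SGQ.SQx

open Finset

/-- numbers `D ≤ X` with `D % 12 = r` divisible by `n²`, `n` prime to `6` -/
lemma card_div (r X n : ℕ) (hr : r < 12) (hn : n % 6 = 1 ∨ n % 6 = 5) :
    (((Icc 1 X).filter fun D => D % 12 = r ∧ n ^ 2 ∣ D).card : ℝ) ≤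
      (X : ℝ) / 12 * (1 / (n : ℝ) ^ 2) + 1 := by
  have hn0 : 0 < n := by omega
  have h12 : n ^ 2 % 12 = 1 := by
    have h1 : n % 12 = 1 ∨ n % 12 = 5 ∨ n % 12 = 7 ∨ n % 12 = 11 := by omega
    rw [Nat.pow_mod]
    rcases h1 with h | h | h | h <;> rw [h]
  have hN : 0 < 12 * n ^ 2 := by positivity
  have hmod : ∀ D, D % 12 = r → n ^ 2 ∣ D → D = 12 * n ^ 2 * (D / (12 * n ^ 2)) + r * n ^ 2 := by
    intro D hD ⟨e, he⟩
    have he12 : e % 12 = r := by
      have : (n ^ 2 * e) % 12 = r := by rw [← he]; exact hD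
      rw [Nat.mul_mod, h12, one_mul, Nat.mod_mod] at this
      exact this
    obtain ⟨q, hq⟩ : ∃ q, e = 12 * q + r := ⟨e / 12, by omega⟩
    have hD' : D = 12 * n ^ 2 * q + r * n ^ 2 := by rw [he, hq]; ring
    have hlt : r * n ^ 2 < 12 * n ^ 2 :=
      Nat.mul_lt_mul_of_pos_right hr (by positivity)
    have hdiv : D / (12 * n ^ 2) = q := by
      rw [hD', add_comm, Nat.add_mul_div_left _ _ hN, Nat.div_eq_of_lt hlt, zero_add]
    rw [hdiv]; exact hD'
  have hcard : ((Icc 1 X).filter fun D => D % 12 = r ∧ n ^ 2 ∣ D).card ≤ X / (12 * n ^ 2) + 1 := by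
    have : ((Icc 1 X).filter fun D => D % 12 = r ∧ n ^ 2 ∣ D).card ≤
        (range (X / (12 * n ^ 2) + 1)).card := by
      apply card_le_card_of_injOn (fun D => D / (12 * n ^ 2))
      · intro D hD
        simp only [coe_filter, mem_Icc, Set.mem_ofPred_eq] at hD
        simp only [coe_range, Set.mem_Iio]
        exact Nat.lt_succ_of_le (Nat.div_le_div_right hD.1.2)
      · intro D hD D' hD' h
        simp only [coe_filter, mem_Icc, Set.mem_ofPred_eq] at hD hD'
        simp only at h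
        rw [hmod D hD.2.1 hD.2.2, hmod D' hD'.2.1 hD'.2.2, h]
    simpa using this
  have h2 : ((X / (12 * n ^ 2) : ℕ) : ℝ) ≤ (X : ℝ) / (12 * (n : ℝ) ^ 2) := by
    have := @Nat.cast_div_le ℝ _ _ _ X (12 * n ^ 2)
    simpa using this
  have hnr : (0 : ℝ) < n := by exact_mod_cast hn0
  calc (((Icc 1 X).filter fun D => D % 12 = r ∧ n ^ 2 ∣ D).card : ℝ)
      ≤ ((X / (12 * n ^ 2) + 1 : ℕ) : ℝ) := by exact_mod_cast hcard
    _ = ((X / (12 * n ^ 2) : ℕ) : ℝ) + 1 := by push_cast; ring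
    _ ≤ (X : ℝ) / (12 * (n : ℝ) ^ 2) + 1 := by linarith
    _ = (X : ℝ) / 12 * (1 / (n : ℝ) ^ 2) + 1 := by
      congr 1
      field_simp

/-- the sum of `1/n²` over the `n = 6k ± 1` -/
lemma sum_inv (K : ℕ) :
    ∑ k ∈ Icc 1 (K + 1), (1 / ((6 * k - 1 : ℕ) : ℝ) ^ 2 + 1 / ((6 * k + 1 : ℕ) : ℝ) ^ 2) ≤
      1 / 10 - 1 / 18 / ((K : ℝ) + 3 / 2) := by
  induction K with
  | zero => norm_num
  | succ K ih =>
    rw [sum_Icc_succ_top (by omega)]
    have h1 : ((6 * (K + 1 + 1) - 1 : ℕ) : ℝ) = 6 * ((K : ℝ) + 2) - 1 := by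
      rw [Nat.cast_sub (by omega)]; push_cast; ring
    have h2 : ((6 * (K + 1 + 1) + 1 : ℕ) : ℝ) = 6 * ((K : ℝ) + 2) + 1 := by
      push_cast; ring
    rw [h1, h2, show ((K + 1 : ℕ) : ℝ) = (K : ℝ) + 1 by push_cast; ring]
    set k : ℝ := (K : ℝ) + 2 with hk
    have hk2 : 2 ≤ k := by
      have : (0 : ℝ) ≤ K := Nat.cast_nonneg K
      linarith
    have e1 : (K : ℝ) + 3 / 2 = k - 1 / 2 := by rw [hk]; ring
    have e2 : (K : ℝ) + 1 + 3 / 2 = k + 1 / 2 := by rw [hk]; ring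
    rw [e1] at ih
    rw [e2]
    have hkey : 1 / (6 * k - 1) ^ 2 + 1 / (6 * k + 1) ^ 2 ≤
        1 / 18 / (k - 1 / 2) - 1 / 18 / (k + 1 / 2) := by
      have ha : (0 : ℝ) < 6 * k - 1 := by linarith
      have hb : (0 : ℝ) < 6 * k + 1 := by linarith
      have hc : (0 : ℝ) < k - 1 / 2 := by linarith
      have hd : (0 : ℝ) < k + 1 / 2 := by linarith
      have e3 : 1 / 18 / (k - 1 / 2) - 1 / 18 / (k + 1 / 2) =
          2 / (9 * (2 * k - 1) * (2 * k + 1)) := by
        have hc' : (2 : ℝ) * k - 1 ≠ 0 := by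
          intro h; apply absurd hc; linarith
        have hd' : (2 : ℝ) * k + 1 ≠ 0 := by
          intro h; apply absurd hd; linarith
        have f1 : k - 1 / 2 = (2 * k - 1) / 2 := by ring
        have f2 : k + 1 / 2 = (2 * k + 1) / 2 := by ring
        rw [f1, f2]
        field_simp
        ring
      rw [e3, div_add_div _ _ (by positivity) (by positivity), div_le_div_iff₀ (by positivity)
        (by
          have : 0 < 2 * k - 1 := by linarith
          positivity)]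
      nlinarith [sq_nonneg k, mul_self_nonneg (k ^ 2)]
    linarith

theorem s_SQ : Pool.Agent.L7h48.SGQ.S_SQ := by
  refine ⟨3, by norm_num, fun r hr X => ?_⟩
  have hr12 : r < 12 := by omega
  rcases Nat.eq_zero_or_pos X with rfl | hX
  · simp
  have hX1 : (1 : ℝ) ≤ √(X : ℝ) := by
    rw [show (1 : ℝ) = √1 by simp]
    exact Real.sqrt_le_sqrt (by exact_mod_cast hX)
  set S := (Icc 1 X).filter fun D => D % 12 = r with hS
  -- all
  have hall : (X : ℝ) / 12 - 1 ≤ (S.card : ℝ) := by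
    have h1 : X / 12 ≤ S.card := by
      have : ((range (X / 12)).card) ≤ S.card := by
        apply card_le_card_of_injOn (fun q => 12 * q + r)
        · intro q hq
          simp only [coe_range, Set.mem_Iio] at hq
          simp only [hS, coe_filter, mem_Icc, Set.mem_ofPred_eq]
          omega
        · intro q _ q' _ h
          simp only at h
          omega
      simpa using this
    have h2 : (X : ℝ) / 12 - 1 ≤ ((X / 12 : ℕ) : ℝ) := by
      have : X < 12 * (X / 12) + 12 := by omega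
      have h3 : (X : ℝ) < 12 * ((X / 12 : ℕ) : ℝ) + 12 := by exact_mod_cast this
      linarith
    calc (X : ℝ) / 12 - 1 ≤ ((X / 12 : ℕ) : ℝ) := h2
      _ ≤ S.card := by exact_mod_cast h1
  -- the others
  set K := Nat.sqrt X with hK
  have hsub : (S.filter fun D => ¬ Squarefree D) ⊆
      (Icc 1 K).biUnion fun k => ((Icc 1 X).filter fun D => D % 12 = r ∧ (6 * k - 1) ^ 2 ∣ D) ∪
        ((Icc 1 X).filter fun D => D % 12 = r ∧ (6 * k + 1) ^ 2 ∣ D) := by
    intro D hD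
    simp only [hS, mem_filter, mem_Icc] at hD
    obtain ⟨⟨⟨hD1, hDX⟩, hD12⟩, hsq⟩ := hD
    rw [Nat.squarefree_iff_prime_squarefree] at hsq
    push Not at hsq
    obtain ⟨p, hp, hpD⟩ := hsq
    have hp2 : p % 2 ≠ 0 := by
      intro h
      have h2 : 2 ∣ p := Nat.dvd_of_mod_eq_zero h
      have : 2 * 2 ∣ D := (Nat.mul_dvd_mul h2 h2).trans hpD
      omega
    have hp3 : p % 3 ≠ 0 := by
      intro h
      have : 3 ∣ D := (Nat.dvd_of_mod_eq_zero h).trans ((Dvd.intro _ rfl).trans hpD)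
      omega
    have hp1 := hp.two_le
    have hpp : p * p ≤ D := Nat.le_of_dvd (by omega) hpD
    have hpK : p ≤ K := Nat.le_sqrt.2 (hpp.trans hDX)
    have hp6 : p % 6 = 1 ∨ p % 6 = 5 := by omega
    have hp5 : 5 ≤ p := by omega
    have hcases : ∃ k, 1 ≤ k ∧ k ≤ p ∧ (p = 6 * k - 1 ∨ p = 6 * k + 1) := by
      refine ⟨(p + 1) / 6, ?_, ?_, ?_⟩ <;> omega
    obtain ⟨k, hk1, hkp, hk⟩ := hcases
    simp only [mem_biUnion, mem_Icc, mem_union, mem_filter]
    refine ⟨k, ⟨hk1, hkp.trans hpK⟩, ?_⟩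
    rcases hk with hk | hk
    · left
      refine ⟨⟨hD1, hDX⟩, hD12, ?_⟩
      rw [← hk, pow_two]; exact hpD
    · right
      refine ⟨⟨hD1, hDX⟩, hD12, ?_⟩
      rw [← hk, pow_two]; exact hpD
  have hK1 : 1 ≤ K := by
    rw [hK]; exact Nat.le_sqrt.2 (by omega)
  have hKr : (K : ℝ) ≤ √(X : ℝ) := by
    apply Real.le_sqrt_of_sq_le
    have := Nat.sqrt_le' X
    exact_mod_cast this
  have hbad : ((S.filter fun D => ¬ Squarefree D).card : ℝ) ≤ (X : ℝ) / 120 + 2 * √(X : ℝ) := by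
    have h1 : ((S.filter fun D => ¬ Squarefree D).card : ℝ) ≤
        ∑ k ∈ Icc 1 K, ((X : ℝ) / 12 * (1 / ((6 * k - 1 : ℕ) : ℝ) ^ 2 + 1 / ((6 * k + 1 : ℕ) : ℝ) ^ 2)
          + 2) := by
      have h2 : (S.filter fun D => ¬ Squarefree D).card ≤
          ∑ k ∈ Icc 1 K, ((((Icc 1 X).filter fun D => D % 12 = r ∧ (6 * k - 1) ^ 2 ∣ D).card) +
            ((Icc 1 X).filter fun D => D % 12 = r ∧ (6 * k + 1) ^ 2 ∣ D).card) :=
        (card_le_card hsub).trans (card_biUnion_le.trans (sum_le_sum fun k _ => card_union_le _ _))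
      have h3 : ((S.filter fun D => ¬ Squarefree D).card : ℝ) ≤
          ∑ k ∈ Icc 1 K, ((((Icc 1 X).filter fun D => D % 12 = r ∧ (6 * k - 1) ^ 2 ∣ D).card : ℝ) +
            (((Icc 1 X).filter fun D => D % 12 = r ∧ (6 * k + 1) ^ 2 ∣ D).card : ℝ)) := by
        exact_mod_cast h2
      refine h3.trans (sum_le_sum fun k hk => ?_)
      rw [mem_Icc] at hk
      have e1 := card_div r X (6 * k - 1) hr12 (by omega)
      have e2 := card_div r X (6 * k + 1) hr12 (by omega)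
      linarith
    refine h1.trans ?_
    rw [sum_add_distrib, ← mul_sum]
    obtain ⟨K', hK'⟩ : ∃ K', K = K' + 1 := ⟨K - 1, by omega⟩
    have h4 := sum_inv K'
    rw [← hK'] at h4
    have h5 : (0 : ℝ) < 1 / 18 / ((K' : ℝ) + 3 / 2) := by positivity
    have h6 : ∑ k ∈ Icc 1 K, (1 / ((6 * k - 1 : ℕ) : ℝ) ^ 2 + 1 / ((6 * k + 1 : ℕ) : ℝ) ^ 2) ≤
        1 / 10 := by linarith
    have h7 : (X : ℝ) / 12 * ∑ k ∈ Icc 1 K, (1 / ((6 * k - 1 : ℕ) : ℝ) ^ 2 +
        1 / ((6 * k + 1 : ℕ) : ℝ) ^ 2) ≤ (X : ℝ) / 12 * (1 / 10) :=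
      mul_le_mul_of_nonneg_left h6 (by positivity)
    have h8 : ∑ _k ∈ Icc 1 K, (2 : ℝ) = 2 * K := by
      rw [sum_const, Nat.card_Icc, nsmul_eq_mul]; simp; ring
    rw [h8]
    linarith
  have hsplit : ((Icc 1 X).filter fun D => Squarefree D ∧ D % 12 = r) =
      S.filter fun D => Squarefree D := by
    rw [hS, filter_filter]
    apply filter_congr
    intro D _
    exact and_comm
  have hcount : (S.filter fun D => Squarefree D).card + (S.filter fun D => ¬ Squarefree D).card =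
      S.card := card_filter_add_card_filter_not _
  have hcount' : (((S.filter fun D => Squarefree D).card : ℝ)) +
      ((S.filter fun D => ¬ Squarefree D).card : ℝ) = S.card := by exact_mod_cast hcount
  rw [hsplit]
  linarith

end Pool.Agent.L7h23.SGQ.SQx
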