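import Pool.Agent.L7h48.SGQ.Stm
import Pool.Agent.L7h51.SGP.WM

set_option autoImplicit false

/-! # Project SGQ, part WM: the mean of the weight (copy of `L7h51/SGP/WM.lean` of helper51) -/

namespace Pool.Agent.L7h23.SGQ.Wm

open Finset Pool.Agent.L7h48.SGP Pool.Agent.L7h48.SGQ
open Pool.Agent.L7h51.SGP (per_any per_sum k3_mod k3_bd ch j_bd ch_bd j_mod ch_mod twist sum_mul_left)

/-- the factor at `6` -/
noncomputable def ka (r j y m : ℕ) : ℝ := k22 r j m y * k3 j m y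

theorem k2_mod (r j m m' y : ℕ) (h : m ≡ m' [MOD 24]) : k22 r j m y = k22 r j m' y := by
  have h8 : 3 ^ j * m ^ 3 ≡ 3 ^ j * m' ^ 3 [MOD 8] :=
    Nat.ModEq.mul_left _ ((h.of_dvd (by norm_num)).pow 3)
  have h4 : 3 ^ j * m ^ 3 ≡ 3 ^ j * m' ^ 3 [MOD 4] :=
    Nat.ModEq.mul_left _ ((h.of_dvd (by norm_num)).pow 3)
  have g4 : m ≡ m' [MOD 4] := h.of_dvd (by norm_num)
  have g2 : m ≡ m' [MOD 2] := h.of_dvd (by norm_num)
  unfold Nat.ModEq at h8 h4 g4 g2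
  unfold k22
  rw [h8, h4, g4, g2]

theorem ka_mod (r j y m m' : ℕ) (h : m ≡ m' [MOD 24]) : ka r j y m = ka r j y m' := by
  unfold ka
  rw [k2_mod r j m m' y h, k3_mod j m m' y h]

theorem k2_bd (r j m y : ℕ) : 0 ≤ k22 r j m y ∧ k22 r j m y ≤ 2 := by
  unfold k22
  split_ifs <;> norm_num

theorem ka_bd (r j y m : ℕ) : 0 ≤ ka r j y m ∧ ka r j y m ≤ 4 / 3 := by
  obtain ⟨h1, h2⟩ := k2_bd r j m y
  obtain ⟨h3, h4⟩ := k3_bd j m y
  refine ⟨mul_nonneg h1 h3, ?_⟩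
  calc k22 r j m y * k3 j m y ≤ 2 * (2 / 3) := mul_le_mul h2 h4 h3 (by norm_num)
    _ = 4 / 3 := by norm_num

theorem rm_bd (j y : ℕ) : 0 ≤ Rm2 j y ∧ Rm2 j y ≤ 1 := by
  unfold Rm2
  split_ifs <;> norm_num

theorem sum24 (r j y : ℕ) (hr : r = 5 ∨ r = 2) (hj : j ≤ 1) :
    ∑ m ∈ range 24, ka r j y m = 24 * Rm2 j y := by
  have hj' : j = 0 ∨ j = 1 := by omega
  have h3 : (y % 3 ≠ 0 ∧ y % 9 ≠ 0) ∨ (y % 3 = 0 ∧ y % 9 = 0) ∨ (y % 3 = 0 ∧ y % 9 ≠ 0) := by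
    omega
  have h2 : (y % 2 = 1 ∧ y % 4 ≠ 2) ∨ (y % 2 ≠ 1 ∧ y % 4 = 2) ∨ (y % 2 ≠ 1 ∧ y % 4 ≠ 2) := by
    omega
  rcases hr with rfl | rfl <;>
  rcases hj' with rfl | rfl <;>
  rcases h3 with ⟨a, b⟩ | ⟨a, b⟩ | ⟨a, b⟩ <;>
  rcases h2 with ⟨c, d⟩ | ⟨c, d⟩ | ⟨c, d⟩ <;>
  · simp only [Finset.sum_range_succ, Finset.sum_range_zero, ka, k22, k3, Rm2, *, if_true, if_false,
      ne_eq, not_true, not_false_iff]
    norm_num

theorem zero_sum (r j y : ℕ) (S : Finset ℕ) (hS : ∀ q ∈ S, q.Prime ∧ 5 ≤ q) (hne : S.Nonempty) :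
    ∑ m ∈ range (24 * ∏ q ∈ S, q), ka r j y m * ch j S m = 0 := by
  obtain ⟨q₀, hq₀⟩ := hne
  obtain ⟨b, h1, h2, h3, h4⟩ := twist S hS hq₀
  have hT : 0 < 24 * ∏ q ∈ S, q :=
    Nat.mul_pos (by norm_num) (Finset.prod_pos fun q hq => (hS q hq).1.pos)
  have h5 := sum_mul_left (f := fun m => ka r j y m * ch j S m) hT h4 (fun m m' h => by
    rw [ka_mod r j y m m' (h.of_dvd (Dvd.intro _ rfl)), ch_mod j S (h.of_dvd (Dvd.intro_left _ rfl))])
  have h6 : ∀ m, ka r j y (b * m) * ch j S (b * m) = -(ka r j y m * ch j S m) := by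
    intro m
    have e1 : ka r j y (b * m) = ka r j y m := by
      refine ka_mod _ _ _ _ _ ?_
      simpa using Nat.ModEq.mul_right m h1
    have e2 : ch j S (b * m) = -ch j S m := by
      unfold ch
      rw [← Finset.mul_prod_erase S _ hq₀, ← Finset.mul_prod_erase S _ hq₀]
      have e3 : ∏ q ∈ S.erase q₀, (jacobiSym ((3 ^ j * (b * m) : ℕ) : ℤ) q : ℝ) =
          ∏ q ∈ S.erase q₀, (jacobiSym ((3 ^ j * m : ℕ) : ℤ) q : ℝ) := by
        refine Finset.prod_congr rfl fun q hq => ?_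
        rw [j_mod (m := b * m) (m' := m)]
        simpa using Nat.ModEq.mul_right m (h2 q hq)
      have e4 : jacobiSym ((3 ^ j * (b * m) : ℕ) : ℤ) q₀ =
          -jacobiSym ((3 ^ j * m : ℕ) : ℤ) q₀ := by
        have : ((3 ^ j * (b * m) : ℕ) : ℤ) = (b : ℤ) * ((3 ^ j * m : ℕ) : ℤ) := by
          push_cast
          ring
        rw [this, jacobiSym.mul_left, h3]
        ring
      rw [e3, e4]
      push_cast
      ring
    rw [e1, e2]
    ring
  simp only [h6] at h5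
  rw [Finset.sum_neg_distrib] at h5
  linarith

theorem s_WM : Pool.Agent.L7h48.SGQ.S_WM := by
  refine ⟨80, by norm_num, fun r j y N hr hj hy => ?_⟩
  set Q := y.primeFactors.filter (5 ≤ ·) with hQ
  have hQp : ∀ q ∈ Q, q.Prime ∧ 5 ≤ q := fun q hq =>
    ⟨Nat.prime_of_mem_primeFactors (Finset.mem_filter.1 hq).1, (Finset.mem_filter.1 hq).2⟩
  have hprod : ∏ q ∈ Q, q ≤ y := by
    have h1 : ∏ q ∈ Q, q ∣ ∏ q ∈ y.primeFactors, q :=
      Finset.prod_dvd_prod_of_subset _ _ _ (Finset.filter_subset _ _)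
    exact Nat.le_of_dvd hy (h1.trans (Nat.prod_primeFactors_dvd y))
  -- expansion
  have hexp : ∀ m, k22 r j m y * k3 j m y * Wt j m y - Rm2 j y =
      (ka r j y m - Rm2 j y) + ∑ S ∈ Q.powerset.erase ∅, ka r j y m * ch j S m := by
    intro m
    have h1 : Wt j m y = ∑ S ∈ Q.powerset, ch j S m := by
      unfold Wt ch
      rw [Finset.prod_one_add]
    have h2 : ∑ S ∈ Q.powerset, ch j S m = ch j ∅ m + ∑ S ∈ Q.powerset.erase ∅, ch j S m :=
      (Finset.add_sum_erase _ _ (Finset.empty_mem_powerset Q)).symm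
    have h3 : ch j ∅ m = 1 := by simp [ch]
    rw [h1, h2, h3, ← Finset.mul_sum]
    unfold ka
    ring
  have hsum : ∑ m ∈ Icc 1 N, (k22 r j m y * k3 j m y * Wt j m y - Rm2 j y) =
      ∑ m ∈ Icc 1 N, (ka r j y m - Rm2 j y) +
        ∑ S ∈ Q.powerset.erase ∅, ∑ m ∈ Icc 1 N, ka r j y m * ch j S m := by
    rw [Finset.sum_congr rfl fun m _ => hexp m, Finset.sum_add_distrib, Finset.sum_comm]
  have hA : |∑ m ∈ Icc 1 N, (ka r j y m - Rm2 j y)| ≤ 2 * (24 : ℕ) := by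
    refine per_sum (by norm_num) (fun m => ?_) ?_ (fun m => ?_) N
    · rw [ka_mod r j y (m + 24) m (by simp [Nat.ModEq])]
    · rw [Finset.sum_sub_distrib, sum24 r j y hr hj]
      simp
    · obtain ⟨h1, h2⟩ := ka_bd r j y m
      obtain ⟨h3, h4⟩ := rm_bd j y
      rw [abs_le]
      constructor <;> linarith
  have hB : ∀ S ∈ Q.powerset.erase ∅, |∑ m ∈ Icc 1 N, ka r j y m * ch j S m| ≤ 32 * (y : ℝ) := by
    intro S hS
    have hSQ : S ⊆ Q := Finset.mem_powerset.1 (Finset.mem_of_mem_erase hS)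
    have hne : S.Nonempty := Finset.nonempty_iff_ne_empty.2 (Finset.ne_of_mem_erase hS)
    have hSp : ∀ q ∈ S, q.Prime ∧ 5 ≤ q := fun q hq => hQp q (hSQ hq)
    have hT : 0 < 24 * ∏ q ∈ S, q :=
      Nat.mul_pos (by norm_num) (Finset.prod_pos fun q hq => (hSp q hq).1.pos)
    have h1 := per_sum (f := fun m => ka r j y m * ch j S m) (B := 4 / 3) hT (fun m => by
      rw [ka_mod r j y (m + 24 * ∏ q ∈ S, q) m (by simp [Nat.ModEq, Nat.add_mul_mod_self_left]),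
        ch_mod j S (m := m + 24 * ∏ q ∈ S, q) (m' := m)
          (by simp [Nat.ModEq, Nat.add_mul_mod_self_right])]) (zero_sum r j y S hSp hne) (fun m => by
      obtain ⟨h1, h2⟩ := ka_bd r j y m
      rw [abs_mul, abs_of_nonneg h1]
      calc ka r j y m * |ch j S m| ≤ 4 / 3 * 1 :=
            mul_le_mul h2 (ch_bd j S m) (abs_nonneg _) (by norm_num)
        _ = 4 / 3 := by norm_num) N
    have h2 : ∏ q ∈ S, q ≤ y := by
      have h3 : ∏ q ∈ S, q ∣ ∏ q ∈ Q, q := Finset.prod_dvd_prod_of_subset _ _ _ hSQ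
      exact (Nat.le_of_dvd (Finset.prod_pos fun q hq => (hQp q hq).1.pos) h3).trans hprod
    have h3 : ((∏ q ∈ S, q : ℕ) : ℝ) ≤ y := by exact_mod_cast h2
    refine h1.trans ?_
    push_cast at h3 ⊢
    linarith
  have hcard : ((Q.powerset.erase ∅).card : ℝ) ≤ √(y : ℝ) := by
    have h1 : (Q.powerset.erase ∅).card ≤ 2 ^ Q.card := by
      rw [← Finset.card_powerset]
      exact Finset.card_le_card (Finset.erase_subset _ _)
    have h2 : 4 ^ Q.card ≤ y := by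
      refine le_trans ?_ hprod
      rw [← Finset.prod_const]
      exact Finset.prod_le_prod' fun q hq => by
        have := (hQp q hq).2
        omega
    have h3 : ((2 : ℝ) ^ Q.card) ≤ √(y : ℝ) := by
      refine Real.le_sqrt_of_sq_le ?_
      rw [← pow_mul, mul_comm, pow_mul]
      norm_num
      exact_mod_cast h2
    calc ((Q.powerset.erase ∅).card : ℝ) ≤ ((2 ^ Q.card : ℕ) : ℝ) := by exact_mod_cast h1
      _ = (2 : ℝ) ^ Q.card := by push_cast; ring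
      _ ≤ √(y : ℝ) := h3
  have hy1 : (1 : ℝ) ≤ y := by exact_mod_cast hy
  have hs1 : (1 : ℝ) ≤ √(y : ℝ) := by
    rw [Real.one_le_sqrt]
    exact hy1
  rw [hsum]
  have h5 : |∑ S ∈ Q.powerset.erase ∅, ∑ m ∈ Icc 1 N, ka r j y m * ch j S m| ≤
      √(y : ℝ) * (32 * y) := by
    calc |∑ S ∈ Q.powerset.erase ∅, ∑ m ∈ Icc 1 N, ka r j y m * ch j S m|
        ≤ ∑ S ∈ Q.powerset.erase ∅, |∑ m ∈ Icc 1 N, ka r j y m * ch j S m| :=
          Finset.abs_sum_le_sum_abs _ _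
      _ ≤ ∑ S ∈ Q.powerset.erase ∅, 32 * (y : ℝ) := Finset.sum_le_sum hB
      _ = ((Q.powerset.erase ∅).card : ℝ) * (32 * y) := by
          rw [Finset.sum_const, nsmul_eq_mul]
      _ ≤ √(y : ℝ) * (32 * y) := mul_le_mul_of_nonneg_right hcard (by positivity)
  have h6 : (1 : ℝ) ≤ y * √(y : ℝ) := by nlinarith
  calc |∑ m ∈ Icc 1 N, (ka r j y m - Rm2 j y) +
        ∑ S ∈ Q.powerset.erase ∅, ∑ m ∈ Icc 1 N, ka r j y m * ch j S m|
      ≤ |∑ m ∈ Icc 1 N, (ka r j y m - Rm2 j y)| +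
        |∑ S ∈ Q.powerset.erase ∅, ∑ m ∈ Icc 1 N, ka r j y m * ch j S m| := abs_add_le _ _
    _ ≤ 48 * (y * √(y : ℝ)) + 32 * (y * √(y : ℝ)) := by
        push_cast at hA
        nlinarith [hA, h5]
    _ = 80 * y * √(y : ℝ) := by ring

end Pool.Agent.L7h23.SGQ.Wm
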